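import Pool.Agent.KS6_92.GN.Game2
import Pool.Agent.KS6_92.GN.Hom2

/-!
# The inequality between volume and Gromov norm fails on every closed oriented 3-manifold

Let `T` be any nonempty oriented triangulation (finitely many oriented tetrahedra, faces glued in
pairs by orientation-reversing affine maps), for example of any closed oriented 3-manifold `M`.
Then finitely many 1-4 moves (stellar subdivisions at tetrahedra) lead to a triangulation `T'` of
the same space and a point `z` of `W(T')`, with all coordinates non-real, whose volume exceeds
`v₃ ‖M‖` by an arbitrarily large amount, and even `(v₃ / 3 - ε) · (number of tetrahedra of T')`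
(the absolute value of the volume is at most `v₃ · (number of tetrahedra)` for every
triangulation).

The proof. (1) Every triangulation has an angle structure with values in `ℝ / 2 π`: by duality
(injectivity of `ℚ / ℤ`) this reduces to a parity lemma for integer weights on the edges such
that the three sums of the weights of opposite edges agree in each tetrahedron; the parity of the
sum of the weights of a face depends only on the tetrahedron, and the faces are glued in pairs.
(2) A 1-4 move at a tetrahedron with the angles `(a, b, c)`, `a = x + y + e + e'`, can produce
the angles `(x + e', b + e, c + y)`, `(y + e, b + e', c + x)`, `-(1 - x - e, e, x)`,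
`-(1 - y - e', e', y)`; for `y + e = 1 / 3`, `b` close to `1 / 3` and `e`, `e'` close to `0` the
second is almost regular, the last two are almost flat, and the first is again of the same kind,
with `a` replaced by `a - 1 / 3`. As `a` only matters modulo `2`, this can be repeated arbitrarily
often. (3) A 1-4 move does not change the space, and it does not increase the Gromov norm: the
push-forward of a fundamental cycle is a fundamental cycle, and every triangulation has one.
-/

set_option autoImplicit false

namespace Pool.Agent.Results.MP_e8da18_gt.EveryManifold

open Pool.Agent.H297R3.Luo Pool.Agent.Y415.LU Pool.Agent.KS6_92.GN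

/-- For every triangulation `T` with at least one tetrahedron, every `K` and every `ε > 0` there
is a triangulation `T'`, obtained from `T` by finitely many 1-4 moves, of the same space, with at
least `K` tetrahedra, and a point `z` of `W(T')` with non-real coordinates such that
`vol(z) > v₃ ‖T'‖ + K` and `vol(z) > (v₃ / 3 - ε) · (number of tetrahedra of T')`. -/
theorem result : ∀ T : Triangulation, Nonempty T.Tet → ∀ K ε : ℝ, 0 < ε →
    ∃ T' : Triangulation, Stellar T T' ∧ Nonempty (T'.Space ≃ₜ T.Space) ∧
      K ≤ Fintype.card T'.Tet ∧
      ∃ z ∈ T'.W, (∀ q, (z q).im ≠ 0) ∧ v3 * T'.gromovNorm + K < T'.vol z ∧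
        (v3 / 3 - ε) * Fintype.card T'.Tet < T'.vol z := by
  rintro T ⟨t1⟩ K ε hε
  have hv := v3_pos
  obtain ⟨T', h1, h2, z, hz, h3, h4, h5⟩ :=
    large_volume T t1 hε (max K (v3 * T.gromovNorm + K))
  refine ⟨T', h1, h1.homeo, (le_max_left _ _).trans h2, z, hz, h3, ?_, h5⟩
  have h6 : v3 * T'.gromovNorm ≤ v3 * T.gromovNorm := mul_le_mul_of_nonneg_left h1.norm hv.le
  have h7 := le_max_right K (v3 * T.gromovNorm + K)
  linarith

end Pool.Agent.Results.MP_e8da18_gt.EveryManifold
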